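import Pool.Agent.X233.VM.Fin

/-! The definitions of `Fin.lean` once more, with named types and instances, so that the terms in the
final statement stay short. -/

namespace Pool.Agent.X233.VM
open Matrix
open scoped TensorProduct

universe u

section
variable (p : ℕ) [Fact p.Prime] (k : Type u) [Field k]

/-- `M(tr) = k G ⊗_{k B} k_tr`, the permutation module on `G / B` -/
def MT : Type u := Mtr p k

noncomputable instance : AddCommGroup (MT p k) := inferInstanceAs (AddCommGroup (Mtr p k))
noncomputable instance : Module k (MT p k) := inferInstanceAs (Module k (Mtr p k))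

/-- the action of `G` on `M(tr)` -/
noncomputable def actM (g : Gp p) : MT p k →ₗ[k] MT p k := act p k g

/-- `η = (1 - s) 1_tr` -/
noncomputable def etaM : MT p k := eta p k

/-- the Steinberg module `St = k G η` -/
noncomputable def StM : Submodule k (MT p k) :=
  Submodule.span k (Set.range fun g => actM p k g (etaM p k))

/-- the Steinberg module as a type -/
def ST : Type u := StM p k

noncomputable instance : AddCommGroup (ST p k) := inferInstanceAs (AddCommGroup (StM p k))
noncomputable instance : Module k (ST p k) := inferInstanceAs (Module k (StM p k))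

theorem actM_mem (g : Gp p) (z : MT p k) (hz : z ∈ StM p k) : actM p k g z ∈ StM p k :=
  act_mem_St p k g z hz

/-- the action of `G` on `St` -/
noncomputable def actS (g : Gp p) : ST p k →ₗ[k] ST p k := (actM p k g).restrict (actM_mem p k g)

/-- `e_x = ε(x) η` -/
noncomputable def eS (x : Kp p) : ST p k :=
  ⟨actM p k (eps p x) (etaM p k), Submodule.subset_span ⟨_, rfl⟩⟩

/-- `St ⊗ St` -/
def SS : Type u := ST p k ⊗[k] ST p k

noncomputable instance : AddCommGroup (SS p k) := inferInstanceAs (AddCommGroup (ST p k ⊗[k] ST p k))
noncomputable instance : Module k (SS p k) := inferInstanceAs (Module k (ST p k ⊗[k] ST p k))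

/-- the pure tensor `a ⊗ b` -/
noncomputable def tm (a b : ST p k) : SS p k := a ⊗ₜ[k] b

/-- `ρ_{x,y} = (e_x ⊗ e_y - e_y ⊗ e_x) / 2` -/
noncomputable def rhoS (x y : Kp p) : SS p k :=
  (1 / 2 : k) • (tm p k (eS p k x) (eS p k y) + (-1 : k) • tm p k (eS p k y) (eS p k x))

/-- `V_-`, the span of all `ρ_{x,y}`, `x ≠ y` -/
noncomputable def VS : Submodule k (SS p k) := Submodule.span k {z | ∃ x y : Kp p, x ≠ y ∧ z = rhoS p k x y}

/-- the diagonal action of `G` on `St ⊗ St` -/
noncomputable def actSS (g : Gp p) : SS p k →ₗ[k] SS p k := TensorProduct.map (actS p k g) (actS p k g)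

end

end Pool.Agent.X233.VM
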