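import Pool.Agent.X233.VM.StepA

namespace Pool.Agent.X233.VM
open OnePoint Matrix

section
variable {F : Type} [Field F] [DecidableEq F]

/-- general matrices -/
noncomputable def mk2 (a b c d : F) (h : a * d - b * c ≠ 0) : GL (Fin 2) F :=
  Matrix.GeneralLinearGroup.mkOfDetNeZero !![a, b; c, d] (by rw [Matrix.det_fin_two_of]; exact h)

theorem mk2_inf (a b c d : F) (h : a * d - b * c ≠ 0) :
    mk2 a b c d h • (∞ : OnePoint F) = if c = 0 then ∞ else ((a / c : F) : OnePoint F) := by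
  rw [smul_infty_eq_ite]; simp [mk2, Matrix.GeneralLinearGroup.mkOfDetNeZero]

theorem mk2_coe (a b c d x : F) (h : a * d - b * c ≠ 0) :
    mk2 a b c d h • (x : OnePoint F) = if c * x + d = 0 then ∞ else (((a * x + b) / (c * x + d) : F) : OnePoint F) := by
  rw [smul_some_eq_ite]; simp [mk2, Matrix.GeneralLinearGroup.mkOfDetNeZero]

theorem exists_g (P Q : OnePoint F) (h : P ≠ Q) :
    ∃ g : GL (Fin 2) F, g • ((0 : F) : OnePoint F) = P ∧ g • (∞ : OnePoint F) = Q := by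
  induction P using OnePoint.rec with
  | infty =>
    induction Q using OnePoint.rec with
    | infty => exact absurd rfl h
    | coe y => exact ⟨mk2 y 1 1 0 (by simp), by rw [mk2_coe]; simp, by rw [mk2_inf]; simp⟩
  | coe x =>
    induction Q using OnePoint.rec with
    | infty => exact ⟨mk2 1 x 0 1 (by simp), by rw [mk2_coe]; simp, by rw [mk2_inf]; simp⟩
    | coe y =>
      have hxy : y - x ≠ 0 := sub_ne_zero.2 (fun e => h (by rw [e]))
      exact ⟨mk2 y x 1 1 (by simpa using hxy), by rw [mk2_coe]; simp, by rw [mk2_inf]; simp⟩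

theorem hh_zero (l : F) (t : Fˣ) (hl : l ≠ 1) : hh l t hl • ((0 : F) : OnePoint F) = ((t : F) : OnePoint F) := by
  rw [smul_some_eq_ite]; simp [hh, Matrix.GeneralLinearGroup.mkOfDetNeZero]

theorem hh_inf (l : F) (t : Fˣ) (hl : l ≠ 1) : hh l t hl • (∞ : OnePoint F) = (((t : F) * l : F) : OnePoint F) := by
  rw [smul_infty_eq_ite]; simp [hh, Matrix.GeneralLinearGroup.mkOfDetNeZero, mul_comm]

end

open scoped InnerProductSpace ComplexConjugate

/-- norm of a sum of unit point masses -/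
theorem norm_count {X Z : Type} [Fintype X] [DecidableEq X] [Fintype Z] (Ψ : Z → X) :
    ‖∑ z : Z, (EuclideanSpace.single (Ψ z) (1 : ℂ) : EuclideanSpace ℂ X)‖ ^ 2
      = ((Finset.univ.filter (fun w : Z × Z => Ψ w.1 = Ψ w.2)).card : ℝ) := by
  have h1 : (⟪∑ z : Z, (EuclideanSpace.single (Ψ z) (1 : ℂ) : EuclideanSpace ℂ X),
      ∑ z : Z, (EuclideanSpace.single (Ψ z) (1 : ℂ) : EuclideanSpace ℂ X)⟫_ℂ)
      = ((Finset.univ.filter (fun w : Z × Z => Ψ w.1 = Ψ w.2)).card : ℂ) := by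
    rw [sum_inner]
    simp only [inner_sum, EuclideanSpace.inner_single_left, map_one, one_mul]
    rw [Finset.card_filter, ← Finset.univ_product_univ, Finset.sum_product]
    push_cast
    refine Finset.sum_congr rfl fun z _ => Finset.sum_congr rfl fun w _ => ?_
    simp [Pi.single_apply]
  have h2 := inner_self_eq_norm_sq_to_K (𝕜 := ℂ)
    (∑ z : Z, (EuclideanSpace.single (Ψ z) (1 : ℂ) : EuclideanSpace ℂ X))
  rw [h1] at h2
  have h3 : ((‖∑ z : Z, (EuclideanSpace.single (Ψ z) (1 : ℂ) : EuclideanSpace ℂ X)‖ ^ 2 : ℝ) : ℂ)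
    = (((Finset.univ.filter (fun w : Z × Z => Ψ w.1 = Ψ w.2)).card : ℝ) : ℂ) := by
    push_cast
    exact h2.symm
  exact_mod_cast h3

theorem core (hC : S_CNT) (hFam : S_FAM) (F : Type) [Field F] [DecidableEq F] [Fintype F]
    (h3 : 3 ≤ Fintype.card F)
    (v : OnePoint F → OnePoint F → ℂ) (hv : Cyc v) (hv1 : v ((0 : F) : OnePoint F) ∞ = 1)
    (hq : 100 * (∑ P, ∑ Q, ‖v P Q‖) ^ 4 < (Fintype.card F : ℝ) - 1)
    (φ : OnePoint F → OnePoint F → ℂ) (hφ : Cyc φ)
    (h : ∀ g : GL (Fin 2) F, ∑ P, ∑ Q, φ (g • P) (g • Q) * v P Q = 0) : φ = 0 := by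
  classical
  obtain ⟨b, hb, hA⟩ := t_A F h3 v hv hv1
  set n : ℝ := (Fintype.card F : ℝ) - 1 with hn
  have hq3 : (3 : ℝ) ≤ Fintype.card F := by exact_mod_cast h3
  have hn0 : 0 < n := by rw [hn]; linarith
  have hnC : ((Fintype.card F : ℂ) - 1) = (n : ℂ) := by simp [hn]
  let N : Submodule ℂ (EuclideanSpace ℂ (OnePoint F × OnePoint F)) :=
    { carrier := {f | Cyc (fun P Q => f (P, Q)) ∧
        ∀ g : GL (Fin 2) F, ∑ P, ∑ Q, f (g • P, g • Q) * v P Q = 0}
      add_mem' := by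
        rintro f f' ⟨h1, h2⟩ ⟨h3, h4⟩
        refine ⟨⟨fun P Q => ?_, fun P => ?_⟩, fun g => ?_⟩
        · have a1 := h1.alt P Q; have a2 := h3.alt P Q
          simp only [PiLp.add_apply]; rw [a1, a2]; ring
        · have a1 := h1.cyc P; have a2 := h3.cyc P
          simp only [PiLp.add_apply, Finset.sum_add_distrib]; rw [a1, a2]; ring
        · have a1 := h2 g; have a2 := h4 g
          simp only [PiLp.add_apply, add_mul, Finset.sum_add_distrib]; rw [a1, a2]; ring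
      zero_mem' := by
        refine ⟨⟨fun P Q => ?_, fun P => ?_⟩, fun g => ?_⟩ <;> simp
      smul_mem' := by
        rintro c f ⟨h1, h2⟩
        refine ⟨⟨fun P Q => ?_, fun P => ?_⟩, fun g => ?_⟩
        · have a1 := h1.alt P Q
          simp only [PiLp.smul_apply, smul_eq_mul]; rw [a1]; ring
        · have a1 := h1.cyc P
          simp only [PiLp.smul_apply, smul_eq_mul, ← Finset.mul_sum]; rw [a1]; ring
        · have a1 := h2 g
          simp only [PiLp.smul_apply, smul_eq_mul, mul_assoc, ← Finset.mul_sum]; rw [a1]; ring }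
  have hN1 : ∀ f ∈ N, ∀ g : GL (Fin 2) F,
      (WithLp.toLp 2 (fun y : OnePoint F × OnePoint F => f (g • y.1, g • y.2))) ∈ N := by
    rintro f ⟨h1, h2⟩ g
    refine ⟨⟨fun P Q => h1.alt _ _, fun P => ?_⟩, fun g' => ?_⟩
    · have := h1.cyc (g • P)
      rw [← this]
      exact Fintype.sum_equiv (MulAction.toPerm g) _ _ (fun _ => rfl)
    · have := h2 (g * g')
      simpa only [mul_smul] using this
  have hN2 : ∀ f ∈ N, ∀ P Q, f (P, Q) = - f (Q, P) := by
    rintro f ⟨h1, _⟩ P Q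
    exact h1.alt P Q
  by_cases hne : N = ⊥
  · have hm : (WithLp.toLp 2 (fun y : OnePoint F × OnePoint F => φ y.1 y.2)) ∈ N := ⟨hφ, h⟩
    rw [hne, Submodule.mem_bot] at hm
    funext P Q
    have := congrArg (fun f : EuclideanSpace ℂ (OnePoint F × OnePoint F) => f (P, Q)) hm
    simpa using this
  exfalso
  obtain ⟨f, hf, hfN⟩ := hFam F N hN1 hN2 hne
  have hcoin : ∀ (g : GL (Fin 2) F) (l l' : {l : F // l ≠ 0 ∧ l ≠ 1}),
      ‖∑ z : Fˣ × Fˣ, (EuclideanSpace.single (g • hh l.1 z.1 l.2.2 • ((z.2 : F) : OnePoint F),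
          g • hh l.1 z.1 l.2.2 • (((z.2 : F) * l'.1 : F) : OnePoint F)) (1 : ℂ) :
          EuclideanSpace ℂ (OnePoint F × OnePoint F))‖ ≤ 5 * n := by
    intro g l l'
    have h1 := norm_count (fun z : Fˣ × Fˣ => (g • hh l.1 z.1 l.2.2 • ((z.2 : F) : OnePoint F),
      g • hh l.1 z.1 l.2.2 • (((z.2 : F) * l'.1 : F) : OnePoint F)))
    have h2 := hC F l.1 l'.1 l.2.1 l.2.2 l'.2.1 l'.2.2
    rw [← pow_le_pow_iff_left₀ (norm_nonneg _) (by positivity) two_ne_zero, h1]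
    refine le_trans (le_of_eq ?_) (h2.trans ?_)
    · congr 2
      ext z
      simp [Prod.ext_iff, smul_left_cancel_iff]
    · nlinarith
  let K : GL (Fin 2) F → EuclideanSpace ℂ (OnePoint F × OnePoint F) := fun g =>
    ∑ l : {l : F // l ≠ 0 ∧ l ≠ 1}, ∑ l' : {l : F // l ≠ 0 ∧ l ≠ 1},
      (conj (b l * b l' * ((n : ℂ)⁻¹ * (n : ℂ)⁻¹))) •
      ∑ z : Fˣ × Fˣ, (EuclideanSpace.single (g • hh l.1 z.1 l.2.2 • ((z.2 : F) : OnePoint F),
          g • hh l.1 z.1 l.2.2 • (((z.2 : F) * l'.1 : F) : OnePoint F)) (1 : ℂ) :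
          EuclideanSpace ℂ (OnePoint F × OnePoint F))
  have hA' : ∀ f0 ∈ N, ∀ g : GL (Fin 2) F,
      f0 (g • ((0 : F) : OnePoint F), g • (∞ : OnePoint F))
        = ∑ l, b l * ((n : ℂ)⁻¹ *
          ∑ t : Fˣ, f0 (g • ((t : F) : OnePoint F), g • (((t : F) * l : F) : OnePoint F))) := by
    rintro f0 ⟨h1, h2⟩ g
    have := hA (fun P Q => f0 (P, Q)) h1 h2 g
    rw [hnC] at this
    exact this
  have main : ∀ f0 ∈ N, ∀ g : GL (Fin 2) F,
      f0 (g • ((0 : F) : OnePoint F), g • (∞ : OnePoint F)) = ⟪K g, f0⟫_ℂ := by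
    intro f0 hf0 g
    rw [hA' f0 hf0 g]
    simp only [K, sum_inner, inner_smul_left, Complex.conj_conj, EuclideanSpace.inner_single_left,
      map_one, one_mul]
    refine Finset.sum_congr rfl fun l _ => ?_
    have h1 : ∀ t : Fˣ, f0 (g • ((t : F) : OnePoint F), g • (((t : F) * l : F) : OnePoint F))
        = ∑ l' : {l : F // l ≠ 0 ∧ l ≠ 1}, b l' * ((n : ℂ)⁻¹ *
          ∑ r : Fˣ, f0 (g • hh l.1 t l.2.2 • ((r : F) : OnePoint F),
            g • hh l.1 t l.2.2 • (((r : F) * l' : F) : OnePoint F))) := by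
      intro t
      have := hA' f0 hf0 (g * hh l.1 t l.2.2)
      simp only [mul_smul, hh_zero, hh_inf] at this
      exact this
    simp only [h1]
    rw [Finset.sum_comm, Finset.mul_sum, Finset.mul_sum]
    refine Finset.sum_congr rfl fun l' _ => ?_
    rw [Fintype.sum_prod_type, ← Finset.mul_sum, ← Finset.mul_sum]
    ring
  have hK : ∀ g, ‖K g‖ ≤ (∑ P, ∑ Q, ‖v P Q‖) ^ 2 * (n⁻¹ * n⁻¹) * (5 * n) := by
    intro g
    have h1 : ‖K g‖ ≤ ∑ l : {l : F // l ≠ 0 ∧ l ≠ 1}, ∑ l' : {l : F // l ≠ 0 ∧ l ≠ 1},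
        (‖b l‖ * ‖b l'‖ * (n⁻¹ * n⁻¹)) * (5 * n) := by
      refine (norm_sum_le _ _).trans (Finset.sum_le_sum fun l _ => ?_)
      refine (norm_sum_le _ _).trans (Finset.sum_le_sum fun l' _ => ?_)
      rw [norm_smul]
      refine mul_le_mul (le_of_eq ?_) (hcoin g l l') (norm_nonneg _) (by positivity)
      rw [RCLike.norm_conj, norm_mul, norm_mul, norm_mul, norm_inv, Complex.norm_real,
        Real.norm_eq_abs, abs_of_pos hn0]
    refine h1.trans ?_
    simp only [← Finset.sum_mul, ← Finset.mul_sum]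
    have h2 : 0 ≤ ∑ l, ‖b l‖ := Finset.sum_nonneg fun _ _ => norm_nonneg _
    have h4 : (∑ l, ‖b l‖) * (∑ l, ‖b l‖) ≤ (∑ P, ∑ Q, ‖v P Q‖) ^ 2 := by
      rw [sq]; exact mul_le_mul hb hb h2 (h2.trans hb)
    gcongr
  set B := ∑ P, ∑ Q, ‖v P Q‖ with hB
  have hB0 : 0 ≤ B := Finset.sum_nonneg fun _ _ => Finset.sum_nonneg fun _ _ => norm_nonneg _
  have hK2 : ∀ g, ‖K g‖ ^ 2 ≤ 25 * B ^ 4 / n ^ 2 := by
    intro g
    have h1 : B ^ 2 * (n⁻¹ * n⁻¹) * (5 * n) = 5 * B ^ 2 / n := by field_simp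
    have h2 := hK g
    rw [h1] at h2
    calc ‖K g‖ ^ 2 ≤ (5 * B ^ 2 / n) ^ 2 := by gcongr
      _ = _ := by ring
  have hpt : ∀ y : OnePoint F × OnePoint F, ∑ j : Fˣ, ‖f j y‖ ^ 2 ≤ 25 * B ^ 4 / n ^ 2 := by
    rintro ⟨P, Q⟩
    by_cases hPQ : P = Q
    · subst hPQ
      have : ∀ j, f j (P, P) = 0 := by
        intro j
        have := hN2 (f j) (hfN j) P P
        linear_combination (1 / 2 : ℂ) * this
      simp only [this, norm_zero]
      simp
      positivity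
    · obtain ⟨g, hg1, hg2⟩ := exists_g P Q hPQ
      rw [← hg1, ← hg2]
      have h1 : ∀ j, ‖f j (g • ((0 : F) : OnePoint F), g • (∞ : OnePoint F))‖ = ‖⟪f j, K g⟫_ℂ‖ := by
        intro j
        rw [main (f j) (hfN j) g, norm_inner_symm]
      simp only [h1]
      exact (hf.sum_inner_products_le (s := Finset.univ) (K g)).trans (hK2 g)
  have htot : ∑ y : OnePoint F × OnePoint F, ∑ j : Fˣ, ‖f j y‖ ^ 2 = n := by
    rw [Finset.sum_comm]
    have h1 : ∀ j, ∑ y : OnePoint F × OnePoint F, ‖f j y‖ ^ 2 = 1 := by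
      intro j
      rw [← EuclideanSpace.norm_sq_eq, hf.1 j]; norm_num
    simp only [h1]
    rw [Finset.sum_const, Finset.card_univ, nsmul_eq_mul, mul_one, Fintype.card_units,
      Nat.cast_sub (by omega), hn]
    simp
  have hle : n ≤ ((Fintype.card F : ℝ) + 1) ^ 2 * (25 * B ^ 4 / n ^ 2) := by
    refine htot.symm.le.trans ((Finset.sum_le_sum fun y _ => hpt y).trans (le_of_eq ?_))
    rw [Finset.sum_const, Finset.card_univ, nsmul_eq_mul, Fintype.card_prod]
    have : Fintype.card (OnePoint F) = Fintype.card F + 1 := Fintype.card_option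
    rw [this]; push_cast; ring
  have hfin : n ≤ 100 * B ^ 4 := by
    refine hle.trans ?_
    have h1 : ((Fintype.card F : ℝ) + 1) ^ 2 ≤ 4 * n ^ 2 := by rw [hn]; nlinarith
    calc _ ≤ 4 * n ^ 2 * (25 * B ^ 4 / n ^ 2) := by gcongr
      _ = _ := by field_simp; ring
  linarith

end Pool.Agent.X233.VM
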