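import Mathlib

/-! Final statement for MP_79d1ba_al and the intermediate statement `S_MAIN`. -/

namespace Pool.Agent.X233.VM
open OnePoint Matrix
open scoped TensorProduct

universe u

/-- the algebraic closure of the field with `p` elements -/
abbrev Kp (p : ℕ) [Fact p.Prime] := AlgebraicClosure (ZMod p)

/-- the abstract group `SL_2` over the algebraic closure -/
abbrev Gp (p : ℕ) [Fact p.Prime] := Matrix.SpecialLinearGroup (Fin 2) (Kp p)

/-- the subgroup `B` of upper triangular matrices -/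
def Bor (p : ℕ) [Fact p.Prime] : Subgroup (Gp p) where
  carrier := {g | (g : Matrix (Fin 2) (Fin 2) (Kp p)) 1 0 = 0}
  mul_mem' := by
    intro a b ha hb
    simp only [Set.mem_setOf_eq] at ha hb ⊢
    rw [Matrix.SpecialLinearGroup.coe_mul, Matrix.mul_apply, Fin.sum_univ_two, ha, hb]
    ring
  one_mem' := by simp
  inv_mem' := by
    intro a ha
    simp only [Set.mem_setOf_eq] at ha ⊢
    rw [Matrix.SpecialLinearGroup.coe_inv, Matrix.adjugate_fin_two]
    simp [ha]

section
variable (p : ℕ) [Fact p.Prime] (k : Type u) [Field k]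

/-- the induced module `M(tr) = k G ⊗_{k B} k_tr`, that is the permutation module on `G / B` -/
abbrev Mtr := (Gp p ⧸ Bor p) →₀ k

/-- the action of `G` on `M(tr)` -/
noncomputable def act (g : Gp p) : Mtr p k →ₗ[k] Mtr p k :=
  Finsupp.lmapDomain k k (fun x : Gp p ⧸ Bor p => g • x)

/-- `ε(x)` -/
noncomputable def eps (x : Kp p) : Gp p := ⟨!![1, x; 0, 1], by rw [Matrix.det_fin_two_of]; ring⟩

/-- `s` -/
noncomputable def sm : Gp p := ⟨!![0, 1; -1, 0], by rw [Matrix.det_fin_two_of]; ring⟩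

/-- `1_tr = 1 ⊗ 1` -/
noncomputable def oneTr : Mtr p k := Finsupp.single (QuotientGroup.mk (1 : Gp p)) 1

/-- `η = (1 - s) 1_tr` -/
noncomputable def eta : Mtr p k := oneTr p k - act p k (sm p) (oneTr p k)

/-- the Steinberg module `St = k G η` -/
noncomputable def St : Submodule k (Mtr p k) := Submodule.span k (Set.range fun g => act p k g (eta p k))

theorem act_mem_St (g : Gp p) (z : Mtr p k) (hz : z ∈ St p k) : act p k g z ∈ St p k := by
  unfold St at hz ⊢
  induction hz using Submodule.span_induction with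
  | mem x hx =>
    obtain ⟨h, rfl⟩ := hx
    refine Submodule.subset_span ⟨g * h, ?_⟩
    simp only [act]
    rw [← LinearMap.comp_apply, ← Finsupp.lmapDomain_comp]
    congr 2
    funext x
    simp [mul_smul]
  | zero => simp
  | add x y _ _ hx hy => rw [map_add]; exact Submodule.add_mem _ hx hy
  | smul a x _ hx => rw [_root_.map_smul]; exact Submodule.smul_mem _ _ hx

/-- the action of `G` on `St` -/
noncomputable def actSt (g : Gp p) : St p k →ₗ[k] St p k :=
  (act p k g).restrict (act_mem_St p k g)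

/-- `e_x = ε(x) η` -/
noncomputable def ex (x : Kp p) : St p k := ⟨act p k (eps p x) (eta p k), Submodule.subset_span ⟨_, rfl⟩⟩

/-- `ρ_{x,y} = (e_x ⊗ e_y - e_y ⊗ e_x) / 2` -/
noncomputable def rho (x y : Kp p) : St p k ⊗[k] St p k :=
  (1 / 2 : k) • (ex p k x ⊗ₜ[k] ex p k y + (-1 : k) • (ex p k y ⊗ₜ[k] ex p k x))

/-- `V_-`, the span of all `ρ_{x,y}`, `x ≠ y` -/
noncomputable def Vminus : Submodule k (St p k ⊗[k] St p k) :=
  Submodule.span k {z | ∃ x y : Kp p, x ≠ y ∧ z = rho p k x y}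

/-- the diagonal action of `G` on `St ⊗ St` -/
noncomputable def act2 (g : Gp p) : St p k ⊗[k] St p k →ₗ[k] St p k ⊗[k] St p k :=
  TensorProduct.map (actSt p k g) (actSt p k g)

/-- the final statement for `p`, `k` -/
def Goal : Prop :=
  Vminus p k ≠ ⊥ ∧ (∀ g : Gp p, ∀ z ∈ Vminus p k, act2 p k g z ∈ Vminus p k) ∧
  ∀ W : Submodule k (St p k ⊗[k] St p k), W ≤ Vminus p k → (∀ g : Gp p, ∀ z ∈ W, act2 p k g z ∈ W) →
    W = ⊥ ∨ W = Vminus p k

/-! The same on the projective line: `G/B` is `OnePoint (Kp p)`, `gB ↦ g ∞`. -/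

/-- `ρ_{x,y}` as a function on pairs of points; `e_x = [∞] - [x]` -/
noncomputable def rt (x y : Kp p) : (OnePoint (Kp p) × OnePoint (Kp p)) →₀ k :=
  (1 / 2 : k) • (Finsupp.single ((x : OnePoint (Kp p)), (y : OnePoint (Kp p))) 1
    - Finsupp.single ((y : OnePoint (Kp p)), (x : OnePoint (Kp p))) 1
    + Finsupp.single ((y : OnePoint (Kp p)), (∞ : OnePoint (Kp p))) 1
    - Finsupp.single ((∞ : OnePoint (Kp p)), (y : OnePoint (Kp p))) 1
    + Finsupp.single ((∞ : OnePoint (Kp p)), (x : OnePoint (Kp p))) 1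
    - Finsupp.single ((x : OnePoint (Kp p)), (∞ : OnePoint (Kp p))) 1)

/-- the span of the `rt x y` -/
noncomputable def Vt : Submodule k ((OnePoint (Kp p) × OnePoint (Kp p)) →₀ k) :=
  Submodule.span k {z | ∃ x y : Kp p, x ≠ y ∧ z = rt p k x y}

open Classical in
/-- action of `GL_2` on functions on pairs -/
noncomputable def actT (g : GL (Fin 2) (Kp p)) :
    ((OnePoint (Kp p) × OnePoint (Kp p)) →₀ k) →ₗ[k] ((OnePoint (Kp p) × OnePoint (Kp p)) →₀ k) :=
  Finsupp.lmapDomain k k (fun y => (g • y.1, g • y.2))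

/-- what helper233 proves: every `GL_2`-stable subspace of `Vt` is zero or `Vt` -/
def S_MAIN : Prop := ∀ W : Submodule k ((OnePoint (Kp p) × OnePoint (Kp p)) →₀ k), W ≤ Vt p k →
  (∀ g : GL (Fin 2) (Kp p), ∀ z ∈ W, actT p k g z ∈ W) → W = ⊥ ∨ W = Vt p k

end

/-- part VM_TR: transfer. Proof: the injective linear map
`Θ : St ⊗ St → Mtr ⊗ Mtr ≅ ((G/B) × (G/B) →₀ k) ≅ (P1 × P1 →₀ k)` (`TensorProduct.map` of the subtypes,
injective by flatness; `finsuppTensorFinsupp'`; the equivalence `G/B ≃ P1`, `gB ↦ g ∞`) sends `ρ_{x,y}` to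
`rt x y` and `act2 g` to `actT g`; every `g ∈ GL_2(Kp)` acts on `P1` as an element of `SL_2(Kp)` (divide by a
square root of the determinant). Stability of `V_-`: `g` maps the triangle `(∞,x,y)` to the triangle
`(a,b,c)`, and `tri(a,b,c) = tri(∞,a,b) + tri(∞,b,c) + tri(∞,c,a)`. -/
def S_TR : Prop := ∀ (p : ℕ) [Fact p.Prime] (k : Type u) [Field k] [CharZero k], S_MAIN p k → Goal p k

end Pool.Agent.X233.VM
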