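import Pool.Agent.X233.VM.Span
import Pool.Agent.X233.VM.Fin

namespace Pool.Agent.X233.VM
open OnePoint Matrix

universe u

section
variable (p : ℕ) [Fact p.Prime] (k : Type u) [Field k]

open Classical in
/-- row sum functional -/
noncomputable def LP (P : OnePoint (Kp p)) : ((OnePoint (Kp p) × OnePoint (Kp p)) →₀ k) →ₗ[k] k :=
  Finsupp.lsum k (fun y => if y.1 = P then LinearMap.id else 0)

open Classical in
theorem LP_single (P : OnePoint (Kp p)) (y : OnePoint (Kp p) × OnePoint (Kp p)) (a : k) :
    LP p k P (Finsupp.single y a) = if y.1 = P then a else 0 := by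
  simp only [LP, Finsupp.lsum_single]
  split_ifs <;> simp

theorem LP_rt (P : OnePoint (Kp p)) (x y : Kp p) : LP p k P (rt p k x y) = 0 := by
  classical
  simp only [rt, _root_.map_smul, map_add, map_sub, LP_single]
  simp

theorem LP_eq (P : OnePoint (Kp p)) (z : (OnePoint (Kp p) × OnePoint (Kp p)) →₀ k)
    (T : Finset (OnePoint (Kp p))) (hT : ∀ Q, z (P, Q) ≠ 0 → Q ∈ T) :
    LP p k P z = ∑ Q ∈ T, z (P, Q) := by
  classical
  have h1 : LP p k P z = ∑ y ∈ z.support, if y.1 = P then z y else 0 := by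
    simp only [LP, Finsupp.lsum_apply, Finsupp.sum]
    refine Finset.sum_congr rfl fun y _ => ?_
    split_ifs <;> simp
  rw [h1]
  have h2 : ∑ Q ∈ T, z (P, Q) = ∑ y ∈ T.image (fun Q => (P, Q)), if y.1 = P then z y else 0 := by
    rw [Finset.sum_image (by intro a _ b _ h; exact (Prod.ext_iff.1 h).2)]
    simp
  rw [h2]
  rw [Finset.sum_subset (Finset.subset_union_left (s₁ := z.support) (s₂ := T.image (fun Q => (P, Q)))),
    Finset.sum_subset (Finset.subset_union_right (s₁ := z.support) (s₂ := T.image (fun Q => (P, Q))))]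
  · intro y _ hy
    by_cases h : y.1 = P
    · rw [if_pos h]
      by_contra hz
      refine hy (Finset.mem_image.2 ⟨y.2, hT _ ?_, ?_⟩)
      · rw [← h]; exact hz
      · rw [← h]
    · rw [if_neg h]
  · intro y _ hy
    have : z y = 0 := by simpa using hy
    simp [this]

theorem vt_cyc (z : (OnePoint (Kp p) × OnePoint (Kp p)) →₀ k) (hz : z ∈ Vt p k) (P : OnePoint (Kp p)) :
    LP p k P z = 0 := by
  unfold Vt at hz
  induction hz using Submodule.span_induction with
  | mem x hx => obtain ⟨x, y, _, rfl⟩ := hx; exact LP_rt p k P x y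
  | zero => simp
  | add x y _ _ hx hy => rw [map_add, hx, hy, add_zero]
  | smul a x _ hx => rw [_root_.map_smul, hx, smul_zero]

theorem vt_alt (z : (OnePoint (Kp p) × OnePoint (Kp p)) →₀ k) (hz : z ∈ Vt p k) (P Q : OnePoint (Kp p)) :
    z (P, Q) = - z (Q, P) := by
  classical
  unfold Vt at hz
  induction hz using Submodule.span_induction with
  | mem x hx =>
    obtain ⟨x, y, _, rfl⟩ := hx
    have hs : ∀ A B : OnePoint (Kp p), (Finsupp.single (A, B) (1 : k)) (P, Q) = (Finsupp.single (B, A) (1 : k)) (Q, P) := by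
      intro A B
      simp only [Finsupp.single_apply, Prod.mk.injEq]
      by_cases h1 : A = P <;> by_cases h2 : B = Q <;> simp [h1, h2]
    simp only [rt, Finsupp.smul_apply, Finsupp.add_apply, Finsupp.sub_apply, smul_eq_mul]
    rw [hs, hs, hs, hs, hs, hs]
    ring
  | zero => simp
  | add x y _ _ hx hy => rw [Finsupp.add_apply, Finsupp.add_apply, hx, hy]; ring
  | smul a x _ hx => rw [Finsupp.smul_apply, Finsupp.smul_apply, hx]; simp

open Classical in
theorem actT_apply (g : GL (Fin 2) (Kp p)) (z : (OnePoint (Kp p) × OnePoint (Kp p)) →₀ k)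
    (P Q : OnePoint (Kp p)) : actT p k g z (P, Q) = z (g⁻¹ • P, g⁻¹ • Q) := by
  have hinj : Function.Injective (fun y : OnePoint (Kp p) × OnePoint (Kp p) => (g • y.1, g • y.2)) := by
    intro a b h
    simp only [Prod.mk.injEq, smul_left_cancel_iff] at h
    exact Prod.ext h.1 h.2
  have h1 := Finsupp.mapDomain_apply hinj z (g⁻¹ • P, g⁻¹ • Q)
  simp only [smul_inv_smul] at h1
  exact h1

open Classical in
theorem actT_single (g : GL (Fin 2) (Kp p)) (y : OnePoint (Kp p) × OnePoint (Kp p)) (a : k) :
    actT p k g (Finsupp.single y a) = Finsupp.single (g • y.1, g • y.2) a := by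
  simp [actT, Finsupp.lmapDomain_apply, Finsupp.mapDomain_single]

open Classical in
theorem actT_rt (x y : Kp p) (h : x ≠ y) :
    actT p k (mk2 (x - y) y 0 1 (by simpa using sub_ne_zero.2 h)) (rt p k 1 0) = rt p k x y := by
  simp only [rt, _root_.map_smul, map_add, map_sub, actT_single, mk2_coe, mk2_inf]
  simp

end

end Pool.Agent.X233.VM
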