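import Pool.Agent.X233.VM.Main

namespace Pool.Agent.X233.VM
open OnePoint Matrix

universe u

section
variable (p : ℕ) [Fact p.Prime] (k : Type u) [Field k]

open Classical in
theorem rt_supp (P Q : OnePoint (Kp p)) (h : rt p k 1 0 (P, Q) ≠ 0) :
    (P = ∞ ∨ P = ((0 : Kp p) : OnePoint (Kp p)) ∨ P = ((1 : Kp p) : OnePoint (Kp p))) ∧
    (Q = ∞ ∨ Q = ((0 : Kp p) : OnePoint (Kp p)) ∨ Q = ((1 : Kp p) : OnePoint (Kp p))) := by
  by_contra hcon
  apply h
  have hs : ∀ A B : OnePoint (Kp p),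
      (A = ∞ ∨ A = ((0 : Kp p) : OnePoint (Kp p)) ∨ A = ((1 : Kp p) : OnePoint (Kp p))) →
      (B = ∞ ∨ B = ((0 : Kp p) : OnePoint (Kp p)) ∨ B = ((1 : Kp p) : OnePoint (Kp p))) →
      (Finsupp.single (A, B) (1 : k)) (P, Q) = 0 := by
    intro A B hA hB
    rw [Finsupp.single_apply, if_neg]
    intro hAB
    rw [Prod.mk.injEq] at hAB
    obtain ⟨rfl, rfl⟩ := hAB
    exact hcon ⟨hA, hB⟩
  simp only [rt, Finsupp.smul_apply, Finsupp.add_apply, Finsupp.sub_apply]
  rw [hs, hs, hs, hs, hs, hs] <;> simp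

open Classical in
theorem main [CharZero k] : S_MAIN p k := by
  intro W hWV hst
  by_cases hW : W = ⊥
  · left; exact hW
  right
  obtain ⟨w, hw, hw0⟩ := W.ne_bot_iff.1 hW
  obtain ⟨⟨P0, Q0⟩, hy⟩ : ∃ y, w y ≠ 0 := by
    by_contra hcon
    push Not at hcon
    exact hw0 (Finsupp.ext hcon)
  have hne : P0 ≠ Q0 := by
    rintro rfl
    have h1 := vt_alt p k w (hWV hw) P0 P0
    apply hy
    have h2 : (2 : k) * w (P0, P0) = 0 := by linear_combination h1
    rcases mul_eq_zero.1 h2 with h3 | h3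
    · exact absurd h3 two_ne_zero
    · exact h3
  obtain ⟨g, hg1, hg2⟩ := exists_g P0 Q0 hne
  obtain ⟨w2, hw2, hw21⟩ : ∃ w2 ∈ W, w2 (((0 : Kp p) : OnePoint (Kp p)), ∞) = 1 := by
    refine ⟨(w (P0, Q0))⁻¹ • actT p k g⁻¹ w, W.smul_mem _ (hst _ _ hw), ?_⟩
    rw [Finsupp.smul_apply, actT_apply, inv_inv, hg1, hg2, smul_eq_mul, inv_mul_cancel₀ hy]
  let K0 : Subfield k := Subfield.closure (Set.range w2)
  have hfin : (Set.range w2).Finite := by
    refine ((w2.support.image w2).finite_toSet.insert 0).subset ?_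
    rintro _ ⟨y, rfl⟩
    by_cases h : w2 y = 0
    · left; exact h
    · right
      exact Finset.mem_coe.2 (Finset.mem_image.2 ⟨y, Finsupp.mem_support_iff.2 h, rfl⟩)
  haveI : Countable K0 := by
    rw [← Cardinal.mk_le_aleph0_iff]
    refine (Subfield.cardinalMk_closure_le_max _).trans (max_le ?_ le_rfl)
    haveI := hfin.to_subtype
    exact Cardinal.mk_le_aleph0
  haveI : CharZero K0 := K0.subtype.charZero
  obtain ⟨j⟩ := emb K0
  have hmem : ∀ y, w2 y ∈ K0 := fun y => Subfield.subset_closure ⟨y, rfl⟩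
  let S : Finset (Kp p) := ((w2.support.image Prod.fst ∪ w2.support.image Prod.snd).preimage
    (fun x : Kp p => (x : OnePoint (Kp p))) (OnePoint.coe_injective.injOn)) ∪ {0, 1}
  set B : ℝ := ∑ y ∈ w2.support, ‖j ⟨w2 y, hmem y⟩‖ with hB
  obtain ⟨F, hFfin, hFS, hFn⟩ := Pool.Agent.X28.VM.t_SUB p S (⌈100 * B ^ 4⌉₊ + 5)
  letI : Fintype F := Fintype.ofFinite F
  let ι : OnePoint F → OnePoint (Kp p) := OnePoint.map (F.subtype)
  have hι : Function.Injective ι := by
    intro a b h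
    induction a using OnePoint.rec with
    | infty =>
      induction b using OnePoint.rec with
      | infty => rfl
      | coe y => exact absurd h (OnePoint.infty_ne_coe _)
    | coe x =>
      induction b using OnePoint.rec with
      | infty => exact absurd h (OnePoint.coe_ne_infty _)
      | coe y => exact congrArg _ (Subtype.ext (OnePoint.coe_injective h))
  have hr : ∀ P : OnePoint (Kp p), (∀ x : Kp p, P = x → x ∈ F) → ∃ P', ι P' = P := by
    intro P h
    induction P using OnePoint.rec with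
    | infty => exact ⟨∞, rfl⟩
    | coe x => exact ⟨((⟨x, h x rfl⟩ : F) : OnePoint F), rfl⟩
  have hsupp : ∀ P Q, w2 (P, Q) ≠ 0 → (∃ P', ι P' = P) ∧ (∃ Q', ι Q' = Q) := by
    intro P Q h
    have h1 : (P, Q) ∈ w2.support := Finsupp.mem_support_iff.2 h
    refine ⟨hr P fun x hx => hFS x ?_, hr Q fun x hx => hFS x ?_⟩
    · refine Finset.mem_union_left _ (Finset.mem_preimage.2 (Finset.mem_union_left _ ?_))
      exact Finset.mem_image.2 ⟨(P, Q), h1, hx⟩
    · refine Finset.mem_union_left _ (Finset.mem_preimage.2 (Finset.mem_union_right _ ?_))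
      exact Finset.mem_image.2 ⟨(P, Q), h1, hx⟩
  have h0F : (0 : Kp p) ∈ F := F.zero_mem
  have h1F : (1 : Kp p) ∈ F := F.one_mem
  have hsr : ∀ (k' : Type u) [Field k'], ∀ P Q, rt p k' 1 0 (P, Q) ≠ 0 → (∃ P', ι P' = P) ∧ (∃ Q', ι Q' = Q) := by
    intro k' _ P Q h
    have h1 : ∀ R : OnePoint (Kp p), (R = ∞ ∨ R = ((0 : Kp p) : OnePoint (Kp p)) ∨ R = ((1 : Kp p) : OnePoint (Kp p))) →
        ∃ P', ι P' = R := by
      rintro R (rfl | rfl | rfl)
      · exact ⟨∞, rfl⟩
      · exact ⟨((0 : F) : OnePoint F), rfl⟩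
      · exact ⟨((1 : F) : OnePoint F), rfl⟩
    obtain ⟨h2, h3⟩ := rt_supp p k' P Q h
    exact ⟨h1 P h2, h1 Q h3⟩
  have hcycgen : ∀ (k' : Type u) [Field k'] (z : (OnePoint (Kp p) × OnePoint (Kp p)) →₀ k'),
      z ∈ Vt p k' → (∀ P Q, z (P, Q) ≠ 0 → (∃ P', ι P' = P) ∧ (∃ Q', ι Q' = Q)) →
      ∀ P, ∑ Q, z (ι P, ι Q) = 0 := by
    intro k' _ z hz hs P
    have h1 := LP_eq p k' (ι P) z (Finset.univ.image ι) (fun Q hQ => by
      obtain ⟨_, Q', hQ'⟩ := hs _ _ hQ
      exact Finset.mem_image.2 ⟨Q', Finset.mem_univ _, hQ'⟩)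
    rw [vt_cyc p k' z hz, Finset.sum_image (fun a _ b _ h => hι h)] at h1
    exact h1.symm
  have hrtV : ∀ (k' : Type u) [Field k'], rt p k' 1 0 ∈ Vt p k' := fun k' _ =>
    Submodule.subset_span ⟨1, 0, one_ne_zero, rfl⟩
  have h3F : 3 ≤ Fintype.card F := by
    rw [← Nat.card_eq_fintype_card]; omega
  obtain ⟨s, z, hz⟩ := span_step F h3F K0 j (fun P Q => ⟨w2 (ι P, ι Q), hmem _⟩)
    (fun P Q => rt p K0 1 0 (ι P, ι Q))
    (fun P Q => Subtype.ext (by
      have := vt_alt p k w2 (hWV hw2) (ι P) (ι Q)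
      simpa using this))
    (fun P => Subtype.ext (by
      have := hcycgen k w2 (hWV hw2) hsupp P
      simpa using this))
    (Subtype.ext (by
      have : w2 (ι ((0 : F) : OnePoint F), ι ∞) = 1 := hw21
      simpa using this))
    (by
      have h1 : ∑ P, ∑ Q, ‖j (⟨w2 (ι P, ι Q), hmem _⟩ : K0)‖ ≤ B := by
        rw [← Fintype.sum_prod_type']
        have h2 : ∑ x : OnePoint F × OnePoint F, ‖j (⟨w2 (ι x.1, ι x.2), hmem _⟩ : K0)‖
            = ∑ y ∈ Finset.univ.image (fun x : OnePoint F × OnePoint F => (ι x.1, ι x.2)),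
              ‖j (⟨w2 y, hmem y⟩ : K0)‖ := by
          rw [Finset.sum_image]
          intro a _ b _ h
          simp only [Prod.mk.injEq] at h
          exact Prod.ext (hι h.1) (hι h.2)
        rw [h2, hB]
        rw [← Finset.sum_filter_ne_zero]
        refine Finset.sum_le_sum_of_subset_of_nonneg (fun y hy => ?_) (fun _ _ _ => norm_nonneg _)
        replace hy := (Finset.mem_filter.1 hy).2
        rw [Finsupp.mem_support_iff]
        intro h0
        apply hy
        have : (⟨w2 y, hmem y⟩ : K0) = 0 := Subtype.ext h0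
        rw [this]; simp
      have h0 : 0 ≤ ∑ P, ∑ Q, ‖j (⟨w2 (ι P, ι Q), hmem _⟩ : K0)‖ :=
        Finset.sum_nonneg fun _ _ => Finset.sum_nonneg fun _ _ => norm_nonneg _
      have h2 : 100 * (∑ P, ∑ Q, ‖j (⟨w2 (ι P, ι Q), hmem _⟩ : K0)‖) ^ 4 ≤ 100 * B ^ 4 := by gcongr
      refine lt_of_le_of_lt h2 ?_
      have h4 : 100 * B ^ 4 ≤ (⌈100 * B ^ 4⌉₊ : ℝ) := Nat.le_ceil _
      have h5 : ((⌈100 * B ^ 4⌉₊ + 5 : ℕ) : ℝ) ≤ Fintype.card F := by
        rw [← Nat.card_eq_fintype_card]; exact_mod_cast hFn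
      push_cast at h5
      linarith)
    (fun P Q => vt_alt p K0 _ (hrtV K0) _ _)
    (fun P => hcycgen K0 _ (hrtV K0) (hsr K0) P)
  have hrt : rt p k 1 0 = ∑ g ∈ s, (z g : k) • actT p k (Matrix.GeneralLinearGroup.map F.subtype g) w2 := by
    have hcast : ∀ y, rt p k 1 0 y = ((rt p K0 1 0 y : K0) : k) := by
      intro y
      have hs : ∀ A, (Finsupp.single A (1 : k)) y = (((Finsupp.single A (1 : K0)) y : K0) : k) := by
        intro A
        simp only [Finsupp.single_apply]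
        split_ifs <;> simp
      simp only [rt, Finsupp.smul_apply, Finsupp.add_apply, Finsupp.sub_apply, smul_eq_mul]
      push_cast
      rw [hs, hs, hs, hs, hs, hs]
      have h22 : (((2 : K0)) : k) = 2 := rfl
      rw [h22]
    have hmapinv : ∀ (g : GL (Fin 2) F) (P' : OnePoint F),
        (Matrix.GeneralLinearGroup.map F.subtype g)⁻¹ • ι P' = ι (g⁻¹ • P') := by
      intro g P'
      have := OnePoint.map_smul F.subtype g⁻¹ P'
      rw [map_inv] at this
      exact this.symm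
    ext ⟨P, Q⟩
    rw [Finsupp.finsetSum_apply]
    simp only [Finsupp.smul_apply, actT_apply, smul_eq_mul]
    by_cases h : (∃ P', ι P' = P) ∧ (∃ Q', ι Q' = Q)
    · obtain ⟨⟨P', rfl⟩, ⟨Q', rfl⟩⟩ := h
      rw [hcast]
      have h1 := congrArg (fun t : K0 => (t : k)) (hz P' Q')
      refine h1.trans ?_
      push_cast
      refine Finset.sum_congr rfl fun g _ => ?_
      rw [hmapinv, hmapinv]
    · have h1 : rt p k 1 0 (P, Q) = 0 := by
        by_contra h2
        exact h (hsr k P Q h2)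
      rw [h1]
      symm
      refine Finset.sum_eq_zero fun g _ => ?_
      have h2 : w2 ((Matrix.GeneralLinearGroup.map F.subtype g)⁻¹ • P,
          (Matrix.GeneralLinearGroup.map F.subtype g)⁻¹ • Q) = 0 := by
        by_contra h3
        apply h
        obtain ⟨⟨P', hP'⟩, ⟨Q', hQ'⟩⟩ := hsupp _ _ h3
        have hm : ∀ R' R, ι R' = (Matrix.GeneralLinearGroup.map F.subtype g)⁻¹ • R → ι (g • R') = R := by
          intro R' R hR
          have := OnePoint.map_smul F.subtype g R'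
          change OnePoint.map F.subtype (g • R') = R
          rw [this]
          change _ • ι R' = R
          rw [hR, smul_inv_smul]
        exact ⟨⟨_, hm _ _ hP'⟩, ⟨_, hm _ _ hQ'⟩⟩
      rw [h2, mul_zero]
  have hrtW : rt p k 1 0 ∈ W := by
    rw [hrt]
    exact W.sum_mem fun g _ => W.smul_mem _ (hst _ _ hw2)
  refine le_antisymm hWV (Submodule.span_le.2 ?_)
  rintro _ ⟨x, y, hxy, rfl⟩
  rw [← actT_rt p k x y hxy]
  exact hst _ _ hrtW

end

end Pool.Agent.X233.VM
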