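import Pool.Agent.X233.VM.Core
import Pool.Agent.X269.VM.Fam
import Pool.Agent.X28.VM.Sub
import Pool.Agent.X50.VM.Cnt

namespace Pool.Agent.X233.VM
open OnePoint Matrix
open scoped InnerProductSpace ComplexConjugate

universe u

theorem emb (K0 : Type u) [Field K0] [CharZero K0] [Countable K0] : Nonempty (K0 →+* ℂ) := by
  classical
  haveI : Small.{0} K0 := inferInstance
  let e : Shrink.{0} K0 ≃ K0 := (equivShrink.{0} K0).symm
  letI : Field (Shrink.{0} K0) := e.field
  let re : Shrink.{0} K0 ≃+* K0 := e.ringEquiv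
  haveI : CharZero (Shrink.{0} K0) := charZero_of_injective_ringHom (f := (re.symm : K0 →+* Shrink.{0} K0)) re.symm.injective
  haveI : Countable (Shrink.{0} K0) := Countable.of_equiv K0 e.symm
  obtain ⟨f⟩ := Pool.Agent.X28.VM.t_EMB (Shrink.{0} K0)
  exact ⟨f.comp (re.symm : K0 →+* Shrink.{0} K0)⟩

theorem span_step (F : Type) [Field F] [DecidableEq F] [Fintype F] (h3 : 3 ≤ Fintype.card F)
    (K0 : Type u) [Field K0] (j : K0 →+* ℂ) (c τ : OnePoint F → OnePoint F → K0)
    (hc1 : ∀ P Q, c P Q = - c Q P) (hc2 : ∀ P, ∑ Q, c P Q = 0) (hc3 : c ((0 : F) : OnePoint F) ∞ = 1)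
    (hq : 100 * (∑ P, ∑ Q, ‖j (c P Q)‖) ^ 4 < (Fintype.card F : ℝ) - 1)
    (hτ1 : ∀ P Q, τ P Q = - τ Q P) (hτ2 : ∀ P, ∑ Q, τ P Q = 0) :
    ∃ (s : Finset (GL (Fin 2) F)) (z : GL (Fin 2) F → K0),
      ∀ P Q, τ P Q = ∑ g ∈ s, z g * c (g⁻¹ • P) (g⁻¹ • Q) := by
  classical
  let vg : GL (Fin 2) F → EuclideanSpace ℂ (OnePoint F × OnePoint F) := fun g =>
    WithLp.toLp 2 (fun y => j (c (g⁻¹ • y.1) (g⁻¹ • y.2)))
  let S : Submodule ℂ (EuclideanSpace ℂ (OnePoint F × OnePoint F)) := Submodule.span ℂ (Set.range vg)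
  let T : EuclideanSpace ℂ (OnePoint F × OnePoint F) := WithLp.toLp 2 (fun y => j (τ y.1 y.2))
  let V : Submodule ℂ (EuclideanSpace ℂ (OnePoint F × OnePoint F)) :=
    { carrier := {f | Cyc (fun P Q => f (P, Q))}
      add_mem' := by
        rintro f f' h1 h3
        refine ⟨fun P Q => ?_, fun P => ?_⟩
        · have a1 := h1.alt P Q; have a2 := h3.alt P Q
          simp only [PiLp.add_apply]; rw [a1, a2]; ring
        · have a1 := h1.cyc P; have a2 := h3.cyc P
          simp only [PiLp.add_apply, Finset.sum_add_distrib]; rw [a1, a2]; ring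
      zero_mem' := by
        refine ⟨fun P Q => ?_, fun P => ?_⟩ <;> simp
      smul_mem' := by
        rintro c f h1
        refine ⟨fun P Q => ?_, fun P => ?_⟩
        · have a1 := h1.alt P Q
          simp only [PiLp.smul_apply, smul_eq_mul]; rw [a1]; ring
        · have a1 := h1.cyc P
          simp only [PiLp.smul_apply, smul_eq_mul, ← Finset.mul_sum]; rw [a1]; ring }
  have hSV : S ≤ V := by
    refine Submodule.span_le.2 ?_
    rintro _ ⟨g, rfl⟩
    refine ⟨fun P Q => ?_, fun P => ?_⟩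
    · change j (c (g⁻¹ • P) (g⁻¹ • Q)) = - j (c (g⁻¹ • Q) (g⁻¹ • P))
      rw [hc1, map_neg]
    · change ∑ Q, j (c (g⁻¹ • P) (g⁻¹ • Q)) = 0
      have h1 : ∑ Q, j (c (g⁻¹ • P) (g⁻¹ • Q)) = ∑ Q, j (c (g⁻¹ • P) Q) :=
        Fintype.sum_equiv (MulAction.toPerm g⁻¹) _ _ (fun _ => rfl)
      rw [h1, ← map_sum, hc2, map_zero]
  have hTV : T ∈ V := by
    refine ⟨fun P Q => ?_, fun P => ?_⟩
    · change j (τ P Q) = - j (τ Q P)
      rw [hτ1, map_neg]
    · change ∑ Q, j (τ P Q) = 0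
      rw [← map_sum, hτ2, map_zero]
  have hTS : T ∈ S := by
    obtain ⟨y, hy, z, hz, hyz⟩ := S.exists_add_mem_mem_orthogonal T
    have hzV : z ∈ V := by
      have : z = T - y := by rw [hyz]; simp
      rw [this]; exact V.sub_mem hTV (hSV hy)
    have hz0 : (fun P Q => conj (z (P, Q))) = (0 : OnePoint F → OnePoint F → ℂ) := by
      refine core Pool.Agent.X50.VM.t_CNT Pool.Agent.X269.VM.t_FAM F h3 (fun P Q => j (c P Q)) ⟨?_, ?_⟩ ?_ hq _ ⟨?_, ?_⟩ ?_
      · intro P Q; change j (c P Q) = - j (c Q P); rw [hc1, map_neg]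
      · intro P; change ∑ Q, j (c P Q) = 0; rw [← map_sum, hc2, map_zero]
      · change j (c _ _) = 1; rw [hc3, map_one]
      · intro P Q
        have := hzV.alt P Q
        simp only at this ⊢
        rw [this, map_neg]
      · intro P
        have := hzV.cyc P
        simp only at this ⊢
        rw [← map_sum, this, map_zero]
      · intro g
        have h1 := (Submodule.mem_orthogonal S z).1 hz (vg g) (Submodule.subset_span ⟨g, rfl⟩)
        rw [← inner_conj_symm, map_eq_zero] at h1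
        rw [← h1, PiLp.inner_apply, Fintype.sum_prod_type]
        refine Fintype.sum_equiv (MulAction.toPerm g) _ _ (fun P => ?_)
        refine Fintype.sum_equiv (MulAction.toPerm g) _ _ (fun Q => ?_)
        simp [vg, mul_comm]
    have : z = 0 := by
      ext y
      have := congrFun (congrFun hz0 y.1) y.2
      simpa using this
    rw [hyz, this, add_zero]; exact hy
  obtain ⟨a, ha⟩ := (Finsupp.mem_span_range_iff_exists_finsupp).1 hTS
  letI : Algebra K0 ℂ := j.toAlgebra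
  obtain ⟨r, hr⟩ := LinearMap.exists_leftInverse_of_injective (Algebra.linearMap K0 ℂ)
    (LinearMap.ker_eq_bot.2 (FaithfulSMul.algebraMap_injective K0 ℂ))
  have hr1 : ∀ x : K0, r (j x) = x := fun x => LinearMap.congr_fun hr x
  refine ⟨a.support, fun g => r (a g), fun P Q => ?_⟩
  have h1 := congrArg (fun f : EuclideanSpace ℂ (OnePoint F × OnePoint F) => r (f (P, Q))) ha
  simp only [Finsupp.sum] at h1
  have h2 : (∑ g ∈ a.support, a g • vg g) (P, Q) = ∑ g ∈ a.support, a g * j (c (g⁻¹ • P) (g⁻¹ • Q)) := by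
    simp [vg, Finset.sum_apply]
  rw [h2, map_sum] at h1
  have h3 : T (P, Q) = j (τ P Q) := rfl
  rw [h3, hr1] at h1
  rw [← h1]
  refine Finset.sum_congr rfl fun g _ => ?_
  have h4 : a g * j (c (g⁻¹ • P) (g⁻¹ • Q)) = (c (g⁻¹ • P) (g⁻¹ • Q)) • a g := by
    rw [Algebra.smul_def, mul_comm]; rfl
  rw [h4, _root_.map_smul, smul_eq_mul, mul_comm]

end Pool.Agent.X233.VM
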