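import Pool.Agent.X233.VM.Stm

namespace Pool.Agent.X233.VM
open OnePoint Matrix

section
variable {F : Type} [Field F] [DecidableEq F]

theorem sumU [Fintype F] (f : F → ℂ) : ∑ x, f x = f 0 + ∑ u : Fˣ, f u := by
  rw [← Finset.add_sum_erase Finset.univ f (Finset.mem_univ 0)]
  congr 1
  symm
  refine Finset.sum_bij (fun (u : Fˣ) _ => (u : F)) ?_ ?_ ?_ ?_
  · intro u _; simp
  · intro u _ w _ h; exact Units.ext h
  · intro x hx
    simp only [Finset.mem_erase, Finset.mem_univ, and_true] at hx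
    exact ⟨Units.mk0 x hx, Finset.mem_univ _, rfl⟩
  · intro u _; rfl

theorem sumOP [Fintype F] (f : OnePoint F → ℂ) :
    ∑ P, f P = f ∞ + f ((0 : F) : OnePoint F) + ∑ u : Fˣ, f ((u : F) : OnePoint F) := by
  have h1 : ∑ P, f P = f ∞ + ∑ x : F, f (x : OnePoint F) := Fintype.sum_option (f : Option F → ℂ)
  rw [h1, sumU (fun x : F => f (x : OnePoint F)), add_assoc]

/-- diagonal matrices -/
noncomputable def dg (t : Fˣ) : GL (Fin 2) F :=
  Matrix.GeneralLinearGroup.mkOfDetNeZero !![(t : F), 0; 0, 1]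
    (by rw [Matrix.det_fin_two_of]; simp)

theorem dg_inf (t : Fˣ) : dg t • (∞ : OnePoint F) = ∞ := by
  rw [smul_infty_eq_ite]; simp [dg, Matrix.GeneralLinearGroup.mkOfDetNeZero]

theorem dg_coe (t : Fˣ) (x : F) : dg t • (x : OnePoint F) = (((t : F) * x : F) : OnePoint F) := by
  rw [smul_some_eq_ite]; simp [dg, Matrix.GeneralLinearGroup.mkOfDetNeZero]

end

theorem t_A : S_A := by
  intro F _ _ _ hq v hv hv1
  classical
  set n : ℂ := (Fintype.card F : ℂ) - 1 with hn
  have hcard : (Fintype.card Fˣ : ℂ) = n := by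
    rw [Fintype.card_units, Nat.cast_sub (by omega)]; simp [hn]
  have hnr : n = (((Fintype.card F : ℝ) - 1 : ℝ) : ℂ) := by simp [hn]
  have hq' : (3 : ℝ) ≤ Fintype.card F := by exact_mod_cast hq
  have hn0 : n ≠ 0 := by
    rw [hnr]
    have : ((Fintype.card F : ℝ) - 1) ≠ 0 := by
      apply ne_of_gt; linarith
    exact_mod_cast this
  have hn4 : 2 * n + 4 ≠ 0 := by
    rw [hnr]
    have : (2 * ((Fintype.card F : ℝ) - 1) + 4 : ℝ) ≠ 0 := by apply ne_of_gt; linarith
    exact_mod_cast this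
  have hnorm : ‖-(n / (2 * n + 4))‖ ≤ 1 := by
    rw [norm_neg, hnr]
    have h1 : (((Fintype.card F : ℝ) - 1 : ℝ) : ℂ) / (2 * (((Fintype.card F : ℝ) - 1 : ℝ) : ℂ) + 4)
      = ((((Fintype.card F : ℝ) - 1) / (2 * ((Fintype.card F : ℝ) - 1) + 4) : ℝ) : ℂ) := by
      push_cast; rfl
    rw [h1, Complex.norm_real, Real.norm_eq_abs, abs_of_nonneg (by
      apply div_nonneg <;> linarith), div_le_one (by linarith)]
    linarith
  let β : F → ℂ := fun l => -(n / (2 * n + 4)) *
    ∑ u : Fˣ, v ((u : F) : OnePoint F) (((u : F) * l : F) : OnePoint F)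
  have hvd : ∀ P, v P P = 0 := fun P => by
    have := hv.alt P P
    linear_combination (1 / 2 : ℂ) * this
  have hβ1 : β 1 = 0 := by simp [β, hvd]
  have conv : ∀ f : F → ℂ, f 1 = 0 → ∑ l : {l : F // l ≠ 0 ∧ l ≠ 1}, f l = ∑ l : Fˣ, f l := by
    intro f hf
    have h1 : ∑ l : {l : F // l ≠ 0 ∧ l ≠ 1}, f l
        = ∑ l ∈ Finset.univ.filter (fun l : F => l ≠ 0 ∧ l ≠ 1), f l := by
      rw [Finset.sum_subtype (p := fun l : F => l ≠ 0 ∧ l ≠ 1) (Finset.univ.filter (fun l : F => l ≠ 0 ∧ l ≠ 1)) (by simp)]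
    have h2 : ∑ l ∈ Finset.univ.filter (fun l : F => l ≠ 0 ∧ l ≠ 1), f l
        = ∑ l : F, (if l ≠ 0 then f l else 0) := by
      rw [Finset.sum_filter]
      refine Finset.sum_congr rfl fun l _ => ?_
      by_cases h0 : l = 0 <;> by_cases h1 : l = 1 <;> simp [h0, h1, hf]
    rw [h1, h2, sumU]
    simp
  have convR : ∀ f : F → ℝ, f 1 = 0 → ∑ l : {l : F // l ≠ 0 ∧ l ≠ 1}, f l = ∑ l : Fˣ, f l := by
    intro f hf
    have := conv (fun l => (f l : ℂ)) (by simp [hf])
    exact_mod_cast this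
  refine ⟨fun l => β l, ?_, ?_⟩
  · have h1 : ∑ l : {l : F // l ≠ 0 ∧ l ≠ 1}, ‖β l‖ = ∑ l : Fˣ, ‖β l‖ :=
      convR (fun l => ‖β l‖) (by simp [hβ1])
    rw [h1]
    have h2 : ∀ l : Fˣ, ‖β l‖ ≤ ∑ u : Fˣ, ‖v ((u : F) : OnePoint F) (((u : F) * l : F) : OnePoint F)‖ := by
      intro l
      simp only [β]
      rw [norm_mul]
      calc _ ≤ 1 * ‖∑ u : Fˣ, v ((u : F) : OnePoint F) (((u : F) * l : F) : OnePoint F)‖ :=
            mul_le_mul_of_nonneg_right hnorm (norm_nonneg _)
        _ ≤ _ := by rw [one_mul]; exact norm_sum_le _ _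
    refine (Finset.sum_le_sum fun l _ => h2 l).trans ?_
    rw [Finset.sum_comm]
    have h3 : ∀ u : Fˣ, ∑ l : Fˣ, ‖v ((u : F) : OnePoint F) (((u : F) * l : F) : OnePoint F)‖
        ≤ ∑ Q, ‖v ((u : F) : OnePoint F) Q‖ := by
      intro u
      have : ∑ l : Fˣ, ‖v ((u : F) : OnePoint F) (((u : F) * l : F) : OnePoint F)‖
        = ∑ Q ∈ Finset.univ.image (fun l : Fˣ => (((u : F) * l : F) : OnePoint F)),
            ‖v ((u : F) : OnePoint F) Q‖ := by
        rw [Finset.sum_image]
        intro a _ b _ hab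
        have := OnePoint.coe_injective hab
        exact Units.ext (mul_left_cancel₀ u.ne_zero this)
      rw [this]
      exact Finset.sum_le_sum_of_subset_of_nonneg (Finset.subset_univ _) (fun _ _ _ => norm_nonneg _)
    refine (Finset.sum_le_sum fun u _ => h3 u).trans ?_
    have : ∑ u : Fˣ, ∑ Q, ‖v ((u : F) : OnePoint F) Q‖
        = ∑ P ∈ Finset.univ.image (fun l : Fˣ => ((l : F) : OnePoint F)), ∑ Q, ‖v P Q‖ := by
      rw [Finset.sum_image]
      intro a _ b _ hab
      exact Units.ext (OnePoint.coe_injective hab)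
    rw [this]
    exact Finset.sum_le_sum_of_subset_of_nonneg (Finset.subset_univ _)
      (fun _ _ _ => Finset.sum_nonneg fun _ _ => norm_nonneg _)
  · intro φ hφ h g
    have hφd : ∀ P, φ P P = 0 := fun P => by
      have := hφ.alt P P
      linear_combination (1 / 2 : ℂ) * this
    set a := φ (g • ((0 : F) : OnePoint F)) (g • (∞ : OnePoint F)) with ha
    let M : F → ℂ := fun l => ∑ t : Fˣ, φ (g • ((t : F) : OnePoint F)) (g • (((t : F) * l : F) : OnePoint F))
    let S : OnePoint F → OnePoint F → ℂ := fun P Q => ∑ t : Fˣ, φ (g • dg t • P) (g • dg t • Q)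
    have hS : ∑ P, ∑ Q, v P Q * S P Q = 0 := by
      have h1 : ∀ t : Fˣ, ∑ P, ∑ Q, φ (g • dg t • P) (g • dg t • Q) * v P Q = 0 := by
        intro t
        have := h (g * dg t)
        simpa only [mul_smul] using this
      have h2 : ∑ P, ∑ Q, v P Q * S P Q
          = ∑ t : Fˣ, ∑ P, ∑ Q, φ (g • dg t • P) (g • dg t • Q) * v P Q := by
        symm
        rw [Finset.sum_comm]
        refine Finset.sum_congr rfl fun P _ => ?_
        rw [Finset.sum_comm]
        refine Finset.sum_congr rfl fun Q _ => ?_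
        simp only [S]
        rw [Finset.mul_sum]
        exact Finset.sum_congr rfl fun t _ => mul_comm _ _
      rw [h2]
      exact Finset.sum_eq_zero fun t _ => h1 t
    have hg : ∀ P, ∑ Q, φ P (g • Q) = 0 := by
      intro P
      rw [← hφ.cyc P]
      exact Fintype.sum_equiv (MulAction.toPerm g) _ _ (fun _ => rfl)
    -- values of S
    have S0i : S ((0 : F) : OnePoint F) ∞ = n * a := by
      simp only [S, dg_inf, dg_coe, mul_zero]
      rw [Finset.sum_const, Finset.card_univ, nsmul_eq_mul, hcard]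
    have Salt : ∀ P Q, S Q P = - S P Q := by
      intro P Q
      simp only [S]
      rw [← Finset.sum_neg_distrib]
      exact Finset.sum_congr rfl fun t _ => hφ.alt _ _
    have Sd : ∀ P, S P P = 0 := by
      intro P; simp [S, hφd]
    have S0u : ∀ u : Fˣ, S ((0 : F) : OnePoint F) ((u : F) : OnePoint F) = - a := by
      intro u
      have h1 := hg (g • ((0 : F) : OnePoint F))
      rw [sumOP, hφd] at h1
      have h2 : S ((0 : F) : OnePoint F) ((u : F) : OnePoint F)
          = ∑ t : Fˣ, φ (g • ((0 : F) : OnePoint F)) (g • ((t : F) : OnePoint F)) := by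
        simp only [S, dg_coe, mul_zero]
        exact Fintype.sum_equiv (Equiv.mulRight u) _ _ (fun t => by simp)
      rw [h2]
      linear_combination h1
    have Siu : ∀ u : Fˣ, S ∞ ((u : F) : OnePoint F) = a := by
      intro u
      have h1 := hg (g • (∞ : OnePoint F))
      rw [sumOP, hφd] at h1
      have h2 : S ∞ ((u : F) : OnePoint F)
          = ∑ t : Fˣ, φ (g • (∞ : OnePoint F)) (g • ((t : F) : OnePoint F)) := by
        simp only [S, dg_coe, dg_inf]
        exact Fintype.sum_equiv (Equiv.mulRight u) _ _ (fun t => by simp)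
      have h3 := hφ.alt (g • (∞ : OnePoint F)) (g • ((0 : F) : OnePoint F))
      rw [h2]
      linear_combination h1 - h3
    have Suw : ∀ u l : Fˣ, S ((u : F) : OnePoint F) (((u : F) * l : F) : OnePoint F) = M l := by
      intro u l
      simp only [S, dg_coe, M]
      exact Fintype.sum_equiv (Equiv.mulRight u) _ _ (fun t => by simp [mul_assoc])
    -- row sums of v
    have r0 := hv.cyc ((0 : F) : OnePoint F)
    have ri := hv.cyc (∞ : OnePoint F)
    rw [sumOP, hvd] at r0 ri
    have hi0 := hv.alt ∞ ((0 : F) : OnePoint F)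
    rw [sumOP] at hS
    simp only [sumOP] at hS
    have e1 : ∑ u : Fˣ, v ∞ ((u : F) : OnePoint F) * S ∞ ((u : F) : OnePoint F)
        = (∑ u : Fˣ, v ∞ ((u : F) : OnePoint F)) * a := by
      rw [Finset.sum_mul]; exact Finset.sum_congr rfl fun u _ => by rw [Siu]
    have e2 : ∑ u : Fˣ, v ((0 : F) : OnePoint F) ((u : F) : OnePoint F) * S ((0 : F) : OnePoint F) ((u : F) : OnePoint F)
        = (∑ u : Fˣ, v ((0 : F) : OnePoint F) ((u : F) : OnePoint F)) * (-a) := by
      rw [Finset.sum_mul]; exact Finset.sum_congr rfl fun u _ => by rw [S0u]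
    have e3 : ∀ u : Fˣ, v ((u : F) : OnePoint F) ∞ * S ((u : F) : OnePoint F) ∞
        = v ∞ ((u : F) : OnePoint F) * a := by
      intro u; rw [Salt ∞, Siu, hv.alt]; ring
    have e4 : ∀ u : Fˣ, v ((u : F) : OnePoint F) ((0 : F) : OnePoint F) * S ((u : F) : OnePoint F) ((0 : F) : OnePoint F)
        = v ((0 : F) : OnePoint F) ((u : F) : OnePoint F) * (-a) := by
      intro u; rw [Salt ((0 : F) : OnePoint F), S0u, hv.alt]; ring
    have e5 : ∀ u : Fˣ, ∑ w : Fˣ, v ((u : F) : OnePoint F) ((w : F) : OnePoint F) * S ((u : F) : OnePoint F) ((w : F) : OnePoint F)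
        = ∑ l : Fˣ, v ((u : F) : OnePoint F) (((u : F) * l : F) : OnePoint F) * M l := by
      intro u
      symm
      refine Fintype.sum_equiv (Equiv.mulLeft u) _ _ (fun l => ?_)
      rw [← Suw u l]; simp
    have e6 : ∑ u : Fˣ, ∑ l : Fˣ, v ((u : F) : OnePoint F) (((u : F) * l : F) : OnePoint F) * M l
        = - ((2 * n + 4) / n) * ∑ l : Fˣ, β l * M l := by
      rw [Finset.sum_comm, Finset.mul_sum]
      refine Finset.sum_congr rfl fun l _ => ?_
      simp only [β]
      rw [← Finset.sum_mul]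
      generalize ∑ u : Fˣ, v ((u : F) : OnePoint F) (((u : F) * l : F) : OnePoint F) = Z
      field_simp
    simp only [e3, e4, Finset.sum_add_distrib, e5, e6, e1, e2, Sd, S0i, ← Finset.sum_mul,
      Salt ((0 : F) : OnePoint F) ∞, mul_zero, zero_add, add_zero] at hS
    have hM : ∑ l : {l : F // l ≠ 0 ∧ l ≠ 1}, β l * (n⁻¹ * M l) = ∑ l : Fˣ, β l * (n⁻¹ * M l) :=
      conv (fun l => β l * (n⁻¹ * M l)) (by simp [hβ1])
    change a = ∑ l : {l : F // l ≠ 0 ∧ l ≠ 1}, β l * (n⁻¹ * M l)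
    rw [hM]
    have hM2 : ∑ l : Fˣ, β l * (n⁻¹ * M l) = n⁻¹ * ∑ l : Fˣ, β l * M l := by
      rw [Finset.mul_sum]; exact Finset.sum_congr rfl fun l _ => by ring
    rw [hM2]
    generalize (∑ l : Fˣ, β l * M l) = X at hS ⊢
    have hx : v ∞ ((0 : F) : OnePoint F) = -1 := by rw [hi0, hv1]
    have hA0 : ∑ u : Fˣ, v ((0 : F) : OnePoint F) ((u : F) : OnePoint F) = -1 := by
      linear_combination r0 - hv1
    have hAi : ∑ u : Fˣ, v ∞ ((u : F) : OnePoint F) = 1 := by
      linear_combination ri - hx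
    rw [hx, hA0, hAi, hv1] at hS
    have key : (2 * n + 4) * a = (2 * n + 4) / n * X := by
      linear_combination hS
    have : a = n⁻¹ * X := by
      apply mul_left_cancel₀ hn4
      rw [key]; field_simp
    exact this

end Pool.Agent.X233.VM
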