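import Mathlib

/-! Definitions and part statements for MP_79d1ba_al (simplicity of `V_-`). -/

namespace Pool.Agent.X233.VM
open OnePoint Matrix

section
variable {F : Type} [Field F] [DecidableEq F]

/-- the matrix `h_t` with `h_t 0 = t`, `h_t ∞ = l t` (for `l ≠ 1`, `t ≠ 0`). -/
noncomputable def hh (l : F) (t : Fˣ) (hl : l ≠ 1) : GL (Fin 2) F :=
  Matrix.GeneralLinearGroup.mkOfDetNeZero !![l * t, (t : F); 1, 1]
    (by
      have : (t : F) ≠ 0 := t.ne_zero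
      rw [Matrix.det_fin_two_of]
      have h2 : l * (t : F) * 1 - t * 1 = (l - 1) * t := by ring
      rw [h2]
      exact mul_ne_zero (sub_ne_zero.2 hl) this)

/-- alternating functions on pairs of points of the projective line with zero row sums -/
structure Cyc [Fintype F] (φ : OnePoint F → OnePoint F → ℂ) : Prop where
  alt : ∀ P Q, φ P Q = - φ Q P
  cyc : ∀ P, ∑ Q, φ P Q = 0
end

/-- part VM_EMB -/
def S_EMB : Prop := ∀ (K : Type) [Field K] [CharZero K] [Countable K], Nonempty (K →+* ℂ)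

/-- part VM_SUB -/
def S_SUB : Prop := ∀ (p : ℕ) [Fact p.Prime] (S : Finset (AlgebraicClosure (ZMod p))) (n : ℕ),
  ∃ F : Subfield (AlgebraicClosure (ZMod p)), Finite F ∧ (∀ x ∈ S, x ∈ F) ∧ n ≤ Nat.card F

open Classical in
/-- part VM_CNT: the number of coincidences.  `hh l t • r = t (l r + 1) / (r + 1)`.
Proof: let `R = {-1, -1/l, -1/l', -1/(l l')}`.  If `r ∉ R` then all four values are finite and nonzero,
`r'` solves the quadratic equation `(l r'+1)(l' r'+1) = c (r'+1)(l l' r'+1)` (not identically zero as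
`l, l' ≠ 1`), and `t'` is determined by `r'`: at most `2 (q-1)^2` quadruples.
If `r ∈ R` then also `r' ∈ R` (one of the values is `0` or `∞`): at most `16 (q-1)^2`. -/
def S_CNT : Prop := ∀ (F : Type) [Field F] [DecidableEq F] [Fintype F] (l l' : F) (_ : l ≠ 0) (hl : l ≠ 1)
  (_ : l' ≠ 0) (_ : l' ≠ 1),
  ((Finset.univ.filter (fun z : (Fˣ × Fˣ) × (Fˣ × Fˣ) =>
      hh l z.1.1 hl • ((z.1.2 : F) : OnePoint F) = hh l z.2.1 hl • ((z.2.2 : F) : OnePoint F) ∧
      hh l z.1.1 hl • (((z.1.2 : F) * l' : F) : OnePoint F)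
        = hh l z.2.1 hl • (((z.2.2 : F) * l' : F) : OnePoint F))).card : ℝ)
    ≤ 18 * ((Fintype.card F : ℝ) - 1) ^ 2

/-- part VM_FAM: an invariant space of alternating functions, not zero, has an orthonormal family
indexed by `Fˣ`.  Proof: for an additive character `ψ` put `φ^ψ = ∑_a ψ(-a) φ(· + a, · + a)`.  If all
`φ^ψ`, `φ ∈ N`, `ψ ≠ 1`, vanish then all `φ ∈ N` are invariant under `x ↦ x + 1` (Fourier inversion),
hence (conjugate by `x ↦ 1/x`) under `w : x ↦ x/(1-x)`; so `φ(0,∞) = φ(1,∞) = φ(∞,-1) = φ(∞,0) =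
-φ(0,∞)`, so `φ(0,∞) = 0` for all `φ ∈ N`, and by 2-transitivity `N = 0`.  So there is `f ∈ N`, `‖f‖ = 1`
with `f(x+a,y+a) = ψ(a) f(x,y)`, `ψ ≠ 1`; the functions `f_t(x,y) = f(tx,ty)`, `t ∈ Fˣ`, are
orthonormal as they have different characters `a ↦ ψ(ta)`. -/
def S_FAM : Prop := ∀ (F : Type) [Field F] [DecidableEq F] [Fintype F]
  (N : Submodule ℂ (EuclideanSpace ℂ (OnePoint F × OnePoint F)))
  (_ : ∀ φ ∈ N, ∀ g : GL (Fin 2) F,
    (WithLp.toLp 2 (fun y : OnePoint F × OnePoint F => φ (g • y.1, g • y.2))) ∈ N)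
  (_ : ∀ φ ∈ N, ∀ P Q, φ (P, Q) = - φ (Q, P)) (_ : N ≠ ⊥),
  ∃ f : Fˣ → EuclideanSpace ℂ (OnePoint F × OnePoint F), Orthonormal ℂ f ∧ ∀ t, f t ∈ N

/-- part VM_A: the averaging identity.  Proof: average the hypothesis for `g · diag(t,1)` over `t`. -/
def S_A : Prop := ∀ (F : Type) [Field F] [DecidableEq F] [Fintype F] (_ : 3 ≤ Fintype.card F)
  (v : OnePoint F → OnePoint F → ℂ) (_ : Cyc v) (_ : v ((0 : F) : OnePoint F) ∞ = 1),
  ∃ b : {l : F // l ≠ 0 ∧ l ≠ 1} → ℂ, (∑ l, ‖b l‖ ≤ ∑ P, ∑ Q, ‖v P Q‖) ∧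
    ∀ φ : OnePoint F → OnePoint F → ℂ, Cyc φ →
      (∀ g : GL (Fin 2) F, ∑ P, ∑ Q, φ (g • P) (g • Q) * v P Q = 0) →
      ∀ g : GL (Fin 2) F, φ (g • ((0 : F) : OnePoint F)) (g • (∞ : OnePoint F))
        = ∑ l, b l * (((Fintype.card F : ℂ) - 1)⁻¹ *
          ∑ t : Fˣ, φ (g • ((t : F) : OnePoint F)) (g • (((t : F) * l : F) : OnePoint F)))

end Pool.Agent.X233.VM
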